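import Pool.Agent.C4N.Stm
import Pool.Agent.Helper76_LAG.Near

/-!
# Squad C4N, modules EBL and EDC: edges near a vertex, counts of coins
-/

set_option autoImplicit false

open scoped BigOperators Classical

noncomputable section

namespace Pool.Agent.C4N.H29

open Finset
open Pool.Agent.LAG (near)
open Pool.Agent.Helper13_Conc

section ebl

variable {V : Type} [Fintype V] (R : SimpleGraph V)

theorem card_nb (x : V) : (univ.filter fun y => R.Adj x y).card = dg R x := by
  rw [dg, ← Set.ncard_coe_finset]
  congr 1
  ext y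
  simp

/-- one step more -/
theorem near_succ {ρ : ℕ} {v x : V} (h : near R (ρ + 1) v x) :
    near R ρ v x ∨ ∃ u, near R ρ v u ∧ R.Adj u x := by
  obtain ⟨p, hp⟩ := h
  rcases Nat.lt_or_ge ρ p.length with h1 | h1
  · right
    have h2 : p.length = ρ + 1 := by omega
    refine ⟨p.getVert ρ, ⟨p.take ρ, ?_⟩, ?_⟩
    · rw [SimpleGraph.Walk.take_length]
      exact min_le_left _ _
    · have h3 := p.adj_getVert_succ (i := ρ) (by omega)
      rwa [← h2, p.getVert_length] at h3
  · exact Or.inl ⟨p, h1⟩

theorem near_zero {v x : V} (h : near R 0 v x) : x = v := by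
  obtain ⟨p, hp⟩ := h
  exact (SimpleGraph.Walk.eq_of_length_eq_zero (Nat.le_zero.1 hp)).symm

theorem ball (D : ℕ) (hD : ∀ v, dg R v ≤ D) (ρ : ℕ) (v : V) :
    (univ.filter fun x => near R ρ v x).card ≤ (D + 1) ^ ρ := by
  induction ρ with
  | zero =>
    rw [pow_zero]
    have : (univ.filter fun x => near R 0 v x) ⊆ {v} := by
      intro x hx
      rw [mem_singleton]
      exact near_zero R (mem_filter.1 hx).2
    exact (card_le_card this).trans (by rw [card_singleton])
  | succ ρ ih =>
    have h1 : (univ.filter fun x => near R (ρ + 1) v x) ⊆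
        (univ.filter fun x => near R ρ v x).biUnion
          (fun u => insert u (univ.filter fun y => R.Adj u y)) := by
      intro x hx
      rw [mem_biUnion]
      rcases near_succ R (mem_filter.1 hx).2 with h | ⟨u, h, h'⟩
      · exact ⟨x, mem_filter.2 ⟨mem_univ _, h⟩, mem_insert_self _ _⟩
      · exact ⟨u, mem_filter.2 ⟨mem_univ _, h⟩,
          mem_insert_of_mem (mem_filter.2 ⟨mem_univ _, h'⟩)⟩
    refine (card_le_card h1).trans ((card_biUnion_le_card_mul _ _ (D + 1) ?_).trans ?_)
    · intro u _
      refine (card_insert_le _ _).trans ?_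
      rw [card_nb]
      have := hD u
      omega
    · rw [pow_succ]
      exact Nat.mul_le_mul_right _ ih

end ebl

/-- EBL: the edges near a vertex. -/
theorem ebl : EBLStmt := by
  intro V _ R D ρ hD
  refine ⟨fun v => ball R D hD ρ v, fun v => ?_, fun e => ?_⟩
  · have h1 : (univ.filter fun e : Sym2 V => ∃ x y, e = s(x, y) ∧ R.Adj x y ∧ near R ρ v x) ⊆
        (univ.filter fun x => near R ρ v x).biUnion
          (fun x => (univ.filter fun y => R.Adj x y).image fun y => s(x, y)) := by
      intro e he
      obtain ⟨x, y, h2, h3, h4⟩ := (mem_filter.1 he).2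
      rw [mem_biUnion]
      exact ⟨x, mem_filter.2 ⟨mem_univ _, h4⟩,
        mem_image.2 ⟨y, mem_filter.2 ⟨mem_univ _, h3⟩, h2.symm⟩⟩
    refine (card_le_card h1).trans ((card_biUnion_le_card_mul _ _ (D + 1) ?_).trans ?_)
    · intro x _
      refine card_image_le.trans ?_
      rw [card_nb]
      have := hD x
      omega
    · rw [pow_succ]
      exact Nat.mul_le_mul_right _ (ball R D hD ρ v)
  · induction e using Sym2.ind with
    | _ a b =>
      have h1 : (univ.filter fun v => ∃ x y, s(a, b) = s(x, y) ∧ R.Adj x y ∧ near R ρ v x) ⊆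
          (univ.filter fun v => near R ρ a v) ∪ (univ.filter fun v => near R ρ b v) := by
        intro v hv
        obtain ⟨x, y, h2, -, h4⟩ := (mem_filter.1 hv).2
        rw [mem_union]
        have h5 : near R ρ x v := Pool.Agent.LAG.near_symm h4
        rcases Sym2.eq_iff.1 h2 with h | h
        · left
          rw [h.1]
          exact mem_filter.2 ⟨mem_univ _, h5⟩
        · right
          rw [h.2]
          exact mem_filter.2 ⟨mem_univ _, h5⟩
      refine (card_le_card h1).trans ((card_union_le _ _).trans ?_)
      have h2 := ball R D hD ρ a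
      have h3 := ball R D hD ρ b
      omega

section edc

variable {E α : Type} [Fintype E] [Fintype α] [Nonempty α]

theorem alpha_pos (α : Type) [Fintype α] [Nonempty α] : (0 : ℝ) < Fintype.card α := by
  exact_mod_cast Fintype.card_pos

/-- all coordinates in `J` have their value in `T` -/
theorem card_all (J : Finset E) (T : Finset α) :
    ((univ.filter fun ω : E → α => ∀ e ∈ J, ω e ∈ T).card : ℝ) =
      ((T.card : ℝ) / Fintype.card α) ^ J.card * Fintype.card (E → α) := by
  have h1 : (univ.filter fun ω : E → α => ∀ e ∈ J, ω e ∈ T) =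
      Fintype.piFinset (fun e => if e ∈ J then T else univ) := by
    ext ω
    rw [mem_filter, Fintype.mem_piFinset]
    constructor
    · rintro ⟨-, h⟩ e
      by_cases he : e ∈ J
      · rw [if_pos he]
        exact h e he
      · rw [if_neg he]
        exact mem_univ _
    · intro h
      refine ⟨mem_univ _, fun e he => ?_⟩
      have := h e
      rwa [if_pos he] at this
  have h0 := alpha_pos α
  have h2 : ∀ e : E, (((if e ∈ J then T else univ : Finset α).card : ℕ) : ℝ) =
      (if e ∈ J then (T.card : ℝ) / Fintype.card α else 1) * Fintype.card α := by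
    intro e
    by_cases he : e ∈ J
    · rw [if_pos he, if_pos he, div_mul_cancel₀ _ h0.ne']
    · rw [if_neg he, if_neg he, one_mul, card_univ]
  rw [h1, Fintype.card_piFinset, Nat.cast_prod, prod_congr rfl fun e _ => h2 e,
    prod_mul_distrib, prod_const, card_univ, Fintype.card_fun, Nat.cast_pow, prod_ite_mem,
    univ_inter, prod_const]

theorem cmu_eq (F : Finset E) (T : Finset α) :
    cmu (fun e : E => if e ∈ F then T else ∅) = F.card * ((T.card : ℝ) / Fintype.card α) := by
  unfold cmu
  have h1 : ∀ e : E, (((if e ∈ F then T else ∅ : Finset α).card : ℕ) : ℝ) / Fintype.card α =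
      if e ∈ F then (T.card : ℝ) / Fintype.card α else 0 := by
    intro e
    by_cases he : e ∈ F
    · rw [if_pos he, if_pos he]
    · rw [if_neg he, if_neg he, card_empty, Nat.cast_zero, zero_div]
  rw [sum_congr rfl fun e _ => h1 e, sum_ite_mem, univ_inter, sum_const, nsmul_eq_mul]

theorem cnt_eq (F : Finset E) (T : Finset α) (ω : E → α) :
    cnt (fun e : E => if e ∈ F then T else ∅) ω = (F.filter fun e => ω e ∈ T).card := by
  unfold cnt
  congr 1
  ext e
  rw [mem_filter, mem_filter]
  by_cases he : e ∈ F
  · simp [he]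
  · simp [he]

theorem count_eq_sum (F : Finset E) (T : Finset α) (ω : E → α) :
    ((F.filter fun e => ω e ∈ T).card : ℝ) = ∑ e ∈ F, (if ω e ∈ T then (1 : ℝ) else 0) := by
  rw [card_filter]
  push_cast
  rfl

theorem mean_count (F : Finset E) (T : Finset α) :
    mean (fun ω : E → α => ((F.filter fun e => ω e ∈ T).card : ℝ)) =
      F.card * ((T.card : ℝ) / Fintype.card α) := by
  simp only [count_eq_sum]
  rw [mean_sum]
  have h1 : ∀ e ∈ F, mean (fun ω : E → α => if ω e ∈ T then (1 : ℝ) else 0) =
      (T.card : ℝ) / Fintype.card α := by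
    intro e _
    rw [mean_coord e (fun a => if a ∈ T then (1 : ℝ) else 0), sum_ite_mem, univ_inter, sum_const,
      nsmul_eq_mul, mul_one]
  rw [sum_congr rfl h1, sum_const, nsmul_eq_mul]

end edc

/-- EDC: the number of the edges of `F` with coin in `T`. -/
theorem edc : EDCStmt := by
  intro E α _ _ _ F T m t hm ht
  refine ⟨?_, fun hF => ?_, fun j => ?_⟩
  · refine count_upper (fun e : E => if e ∈ F then T else ∅) m t ?_ _ ?_
    · rw [cmu_eq]
      exact hm
    · intro ω hω
      rw [cnt_eq]
      exact hω
  · have hF' : (0 : ℝ) < F.card := by exact_mod_cast hF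
    refine mcd_abs (fun ω : E → α => ((F.filter fun e => ω e ∈ T).card : ℝ))
      (fun e => if e ∈ F then 1 else 0) ?_ F.card t ?_ hF' ht _ ?_
    · intro e ω ω' hω
      simp only [count_eq_sum]
      rw [← sum_sub_distrib]
      by_cases he : e ∈ F
      · rw [if_pos he, sum_eq_single e]
        · split_ifs <;> norm_num
        · intro b _ hb
          rw [hω b hb, sub_self]
        · intro h
          exact absurd he h
      · rw [if_neg he, sum_eq_zero, abs_zero]
        intro b hb
        have : b ≠ e := by
          rintro rfl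
          exact he hb
        rw [hω b this, sub_self]
    · simp
    · intro ω hω
      rw [mean_count]
      exact hω
  · have h0 : (0 : ℝ) ≤ (T.card : ℝ) / Fintype.card α := by positivity
    have hΩ : (0 : ℝ) ≤ Fintype.card (E → α) := Nat.cast_nonneg _
    have h1 : (univ.filter fun ω : E → α => j ≤ (F.filter fun e => ω e ∈ T).card) ⊆
        (F.powersetCard j).biUnion (fun J => univ.filter fun ω : E → α => ∀ e ∈ J, ω e ∈ T) := by
      intro ω hω
      obtain ⟨J, hJ1, hJ2⟩ := exists_subset_card_eq (mem_filter.1 hω).2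
      rw [mem_biUnion]
      refine ⟨J, mem_powersetCard.2 ⟨hJ1.trans (filter_subset _ _), hJ2⟩,
        mem_filter.2 ⟨mem_univ _, fun e he => (mem_filter.1 (hJ1 he)).2⟩⟩
    have h2 : ((univ.filter fun ω : E → α => j ≤ (F.filter fun e => ω e ∈ T).card).card : ℝ) ≤
        ∑ J ∈ F.powersetCard j,
          ((univ.filter fun ω : E → α => ∀ e ∈ J, ω e ∈ T).card : ℝ) := by
      exact_mod_cast (card_le_card h1).trans card_biUnion_le
    have h3 : ∀ J ∈ F.powersetCard j,
        ((univ.filter fun ω : E → α => ∀ e ∈ J, ω e ∈ T).card : ℝ) =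
          ((T.card : ℝ) / Fintype.card α) ^ j * Fintype.card (E → α) := by
      intro J hJ
      rw [card_all, (mem_powersetCard.1 hJ).2]
    rw [sum_congr rfl h3, sum_const, card_powersetCard, nsmul_eq_mul] at h2
    have h4 : ((F.card.choose j : ℕ) : ℝ) ≤ (F.card : ℝ) ^ j := by
      exact_mod_cast Nat.choose_le_pow F.card j
    refine h2.trans ?_
    rw [← mul_assoc]
    refine mul_le_mul_of_nonneg_right ?_ hΩ
    calc ((F.card.choose j : ℕ) : ℝ) * ((T.card : ℝ) / Fintype.card α) ^ j
        ≤ (F.card : ℝ) ^ j * ((T.card : ℝ) / Fintype.card α) ^ j :=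
          mul_le_mul_of_nonneg_right h4 (pow_nonneg h0 _)
      _ = (F.card * ((T.card : ℝ) / Fintype.card α)) ^ j := (mul_pow _ _ _).symm
      _ ≤ m ^ j := pow_le_pow_left₀ (mul_nonneg (Nat.cast_nonneg _) h0) hm j

end Pool.Agent.C4N.H29
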