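import Pool.Agent.C4N.Stm
import Pool.Agent.Helper48_LLG.Reg

/-!
# Squad C4N, module STA: a graph without cycles of length four is an induced subgraph of a regular one
-/

set_option autoImplicit false

namespace Pool.Agent.C4N.H29

open SimpleGraph Pool.Agent.LAG Pool.Agent.LLG.H48 Pool.Agent.LLG.H48.Reg

/-- a cycle with four edges as a sequence -/
def quad {W : Type} (p q r s : W) (t : ℕ) : W :=
  match t % 4 with
  | 0 => p
  | 1 => q
  | 2 => r
  | _ => s

theorem isC_quad {W : Type} {H : SimpleGraph W} {p q r s : W} (h1 : H.Adj p q) (h2 : H.Adj q r)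
    (h3 : H.Adj r s) (h4 : H.Adj s p) (hpr : p ≠ r) (hqs : q ≠ s) : IsC H (quad p q r s) 4 := by
  refine ⟨by norm_num, ?_, rfl, ?_⟩
  · intro t ht
    interval_cases t
    · exact h1
    · exact h2
    · exact h3
    · exact h4
  · intro i j hi hj h
    interval_cases i <;> interval_cases j <;> first
      | rfl
      | exact absurd h h1.ne
      | exact absurd h h1.ne.symm
      | exact absurd h h2.ne
      | exact absurd h h2.ne.symm
      | exact absurd h h3.ne
      | exact absurd h h3.ne.symm
      | exact absurd h h4.ne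
      | exact absurd h h4.ne.symm
      | exact absurd h hpr
      | exact absurd h hpr.symm
      | exact absurd h hqs
      | exact absurd h hqs.symm

section

variable {V D : Type} (G : SimpleGraph V) (X : SimpleGraph D) (a b : D) (d : ℕ)

theorem no_link (hX : Big X 4) (hab : X.Adj a b) {p q r s : WW V D d}
    (h1 : (RG G G X a b d).Adj p q) (h2 : (RG G G X a b d).Adj q r)
    (h3 : (RG G G X a b d).Adj r s) (h4 : (RG G G X a b d).Adj s p) (hpr : p ≠ r) (hqs : q ≠ s)
    (v : V × Bool) (w : (V × Fin d) × D) (hp : p = .inl v) (hq : q = .inr w) : False := by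
  have h := cyc_exit G G X a b d hX hab (quad p q r s) 4 (isC_quad h1 h2 h3 h4 hpr hqs) 0
    (by norm_num) v w hp hq
  omega

theorem c4_RG (hG : C4free G) (hX : Big X 4) (hab : X.Adj a b) : C4free (RG G G X a b d) := by
  intro u v x y huv hux hvx huy hvy
  by_contra hxy
  rcases hu : u with ⟨u', su⟩ | ⟨pu, cu⟩
  · rcases hx : x with ⟨x', sx⟩ | wx
    · rcases hv : v with ⟨v', sv⟩ | wv
      · rcases hy : y with ⟨y', sy⟩ | wy
        · subst hu hx hv hy
          obtain ⟨e1, g1⟩ := hux
          obtain ⟨e2, g2⟩ := hvx
          obtain ⟨e3, g3⟩ := huy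
          obtain ⟨e4, g4⟩ := hvy
          have k1 : G.Adj u' x' := by simpa using g1
          have k2 : G.Adj v' x' := by simpa using g2
          have k3 : G.Adj u' y' := by simpa using g3
          have k4 : G.Adj v' y' := by simpa using g4
          have huv' : u' ≠ v' := by
            intro h
            apply huv
            rw [h, e1, e2]
          have := hG u' v' x' y' huv' k1 k2 k3 k4
          apply hxy
          rw [this, ← e1, ← e3]
        · exact no_link G X a b d hX hab hvy huy.symm hux hvx.symm huv.symm (Ne.symm hxy) _ _ hv hy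
      · exact no_link G X a b d hX hab hvx.symm hvy huy.symm hux hxy huv.symm _ _ hx hv
    · exact no_link G X a b d hX hab hux hvx.symm hvy huy.symm huv hxy _ _ hu hx
  · rcases hx : x with wx | ⟨px, cx⟩
    · exact no_link G X a b d hX hab hux.symm huy hvy.symm hvx hxy huv _ _ hx hu
    · rcases hv : v with wv | ⟨pv, cv⟩
      · exact no_link G X a b d hX hab hvx hux.symm huy hvy.symm huv.symm hxy _ _ hv hx
      · rcases hy : y with wy | ⟨py, cy⟩
        · exact no_link G X a b d hX hab hvy.symm hvx hux.symm huy (Ne.symm hxy) huv.symm _ _ hy hv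
        · subst hu hx hv hy
          obtain ⟨e1, g1, -⟩ := hux
          obtain ⟨e2, g2, -⟩ := hvx
          obtain ⟨e3, g3, -⟩ := huy
          obtain ⟨e4, g4, -⟩ := hvy
          have huv' : cu ≠ cv := by
            intro h
            apply huv
            rw [h, e1, e2]
          have hxy' : cx ≠ cy := by
            intro h
            apply hxy
            rw [h, ← e1, ← e3]
          have := cycLen D X 4 hX _ _ (isC_quad g1 g2.symm g4 g3.symm huv' hxy')
          omega

end

theorem sta : STAStmt := by
  classical
  intro V _ G d hG hd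
  rcases Nat.eq_zero_or_pos d with hd0 | hd0
  · refine ⟨V, inferInstance, Function.Embedding.refl V, G, ?_, hG, ?_⟩
    · ext u v; simp
    · intro w
      have := hd w
      omega
  · obtain ⟨D, hD, X, a, b, hXd, hXg, hab⟩ := Pool.Agent.LLG.H48.Gad.gad d 4 hd0
    let f : V ↪ WW V D d := ⟨fun v => .inl (v, false), fun u v h =>
      (Prod.mk.inj (Sum.inl.inj h)).1⟩
    refine ⟨WW V D d, inferInstance, f, RG G G X a b d, ?_, c4_RG G X a b d hG hXg hab, ?_⟩
    · ext u v
      show (RG G G X a b d).Adj (.inl (u, false)) (.inl (v, false)) ↔ _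
      exact ⟨fun h => by simpa using h.2, fun h => ⟨rfl, by simpa using h⟩⟩
    · rintro (⟨v, s⟩ | ⟨p, x⟩)
      · exact degree_inl G X a b d hd v s
      · exact degree_inr G X a b d hXd hab p x

end Pool.Agent.C4N.H29
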