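import Pool.Agent.C4N.Stm2

/-!
# Squad C4N, module INS: exchange step for an edge between two vertices of degree two
-/

set_option autoImplicit false

namespace Pool.Agent.C4N.H29

open SimpleGraph

variable {V : Type} {F : SimpleGraph V}

/-- the first edge of a walk -/
theorem first_edge {x y : V} (hxy : x ≠ y) (p : F.Walk x y) : ∃ z, F.Adj x z ∧ s(x, z) ∈ p.edges := by
  cases p with
  | nil => exact absurd rfl hxy
  | @cons _ z _ h q =>
    exact ⟨z, h, by rw [Walk.edges_cons]; exact List.mem_cons_self⟩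

/-- a neighbour through which `x` is connected with `y` can be chosen -/
theorem cut {x y a1 a2 : V} (hF : F.IsAcyclic) (hxy : x ≠ y)
    (hx : ∀ z, F.Adj x z ↔ z = a1 ∨ z = a2) :
    ∃ a a', ((a = a1 ∧ a' = a2) ∨ (a = a2 ∧ a' = a1)) ∧ ¬ (F \ edge x a).Reachable x y := by
  classical
  by_contra hcon
  push Not at hcon
  obtain ⟨p1⟩ := hcon a1 a2 (Or.inl ⟨rfl, rfl⟩)
  obtain ⟨p2⟩ := hcon a2 a1 (Or.inr ⟨rfl, rfl⟩)
  have hno : ∀ (a : V) (p : (F \ edge x a).Walk x y), a ≠ x → s(x, a) ∉ p.edges := by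
    intro a p hax h
    have h1 := p.adj_of_mem_edges h
    rw [sdiff_adj] at h1
    apply h1.2
    rw [edge_adj]
    exact ⟨Or.inl ⟨rfl, rfl⟩, hax.symm⟩
  have n1 : a1 ≠ x := ((hx a1).2 (Or.inl rfl)).ne.symm
  have n2 : a2 ≠ x := ((hx a2).2 (Or.inr rfl)).ne.symm
  set q1 : F.Walk x y := p1.bypass.mapLe sdiff_le with hq1
  set q2 : F.Walk x y := p2.bypass.mapLe sdiff_le with hq2
  have hp1 : q1.IsPath := (Walk.isPath_mapLe _).2 p1.bypass_isPath
  have hp2 : q2.IsPath := (Walk.isPath_mapLe _).2 p2.bypass_isPath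
  have e1 : q1.edges = p1.bypass.edges := Walk.edges_mapLe_eq_edges _ _
  have e2 : q2.edges = p2.bypass.edges := Walk.edges_mapLe_eq_edges _ _
  have he : q1 = q2 := congrArg Subtype.val (hF.path_unique ⟨q1, hp1⟩ ⟨q2, hp2⟩)
  obtain ⟨z, hz, hze⟩ := first_edge hxy q1
  rcases (hx z).1 hz with h | h
  · subst h
    rw [e1] at hze
    exact hno z p1.bypass n1 hze
  · subst h
    rw [he, e2] at hze
    exact hno z p2.bypass n2 hze

theorem ncard_le_two {s : Set V} {a b : V} (h : s ⊆ {a, b}) : s.ncard ≤ 2 := by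
  classical
  have h1 : ({a, b} : Set V).Finite := Set.toFinite _
  refine (Set.ncard_le_ncard h h1).trans ((Set.ncard_insert_le a {b}).trans ?_)
  rw [Set.ncard_singleton]

theorem ins : INSStmt := by
  classical
  intro V _ F x y a1 a2 b1 b2 hF hxy hnadj ha hb h11 h12 h21 h22 hx hy
  obtain ⟨a, a', haa, hcut⟩ := cut hF.1 hxy hx
  have hax : F.Adj x a := by
    rcases haa with ⟨h, -⟩ | ⟨h, -⟩
    · exact (hx a).2 (Or.inl h)
    · exact (hx a).2 (Or.inr h)
  have hx' : ∀ z, F.Adj x z → z = a ∨ z = a' := by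
    intro z hz
    rcases haa with ⟨h1, h2⟩ | ⟨h1, h2⟩
    · rw [h1, h2]
      exact (hx z).1 hz
    · rw [h1, h2]
      exact ((hx z).1 hz).symm
  have hyb : F.Adj y b1 := (hy b1).2 (Or.inl rfl)
  have hay : a ≠ y := by
    rintro rfl
    exact hnadj hax
  have hbx : b1 ≠ x := by
    rintro rfl
    exact hnadj hyb.symm
  refine ⟨a, b1, ?_, Or.inl rfl, ?_, ?_⟩
  · rcases haa with ⟨h, -⟩ | ⟨h, -⟩
    · exact Or.inl h
    · exact Or.inr h
  · -- acyclic
    have he : (((F ⊔ edge x y) \ edge x a) \ edge y b1) =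
        ((F \ edge x a) \ edge y b1) ⊔ edge x y := by
      ext u v
      simp only [sdiff_adj, sup_adj, edge_adj]
      constructor
      · rintro ⟨⟨h1 | h1, h2⟩, h3⟩
        · exact Or.inl ⟨⟨h1, h2⟩, h3⟩
        · exact Or.inr h1
      · rintro (⟨⟨h1, h2⟩, h3⟩ | h1)
        · exact ⟨⟨Or.inl h1, h2⟩, h3⟩
        · refine ⟨⟨Or.inr h1, ?_⟩, ?_⟩
          · rintro ⟨h2, -⟩
            rcases h1.1 with ⟨e1, e2⟩ | ⟨e1, e2⟩ <;> rcases h2 with ⟨e3, e4⟩ | ⟨e3, e4⟩
            · exact hay (e4.symm.trans e2)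
            · exact hxy (e4.symm.trans e2)
            · exact hxy (e3.symm.trans e1)
            · exact hay (e3.symm.trans e1)
          · rintro ⟨h2, -⟩
            rcases h1.1 with ⟨e1, e2⟩ | ⟨e1, e2⟩ <;> rcases h2 with ⟨e3, e4⟩ | ⟨e3, e4⟩
            · exact hxy (e1.symm.trans e3)
            · exact hbx (e3.symm.trans e1)
            · exact hbx (e4.symm.trans e2)
            · exact hxy (e2.symm.trans e4)
    rw [he]
    have hnr : ¬ ((F \ edge x a) \ edge y b1).Reachable x y := by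
      intro h
      exact hcut (h.mono sdiff_le)
    rw [isAcyclic_add_edge_iff_of_not_reachable x y hnr]
    exact hF.1.anti (sdiff_le.trans sdiff_le)
  · -- degrees
    intro v
    by_cases hvx : v = x
    · subst hvx
      refine ncard_le_two (a := a') (b := y) ?_
      intro z hz
      have h1 : ((F.Adj v z ∨ (edge v y).Adj v z) ∧ ¬ (edge v a).Adj v z) ∧
        ¬ (edge y b1).Adj v z := hz
      simp only [edge_adj] at h1
      obtain ⟨⟨h2, h3⟩, -⟩ := h1
      rcases h2 with h2 | h2
      · rcases hx' z h2 with h4 | h4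
        · exfalso
          apply h3
          exact ⟨Or.inl ⟨trivial, h4⟩, h2.ne⟩
        · exact Or.inl h4
      · rcases h2.1 with h4 | h4
        · exact Or.inr h4.2
        · exact absurd h4.1 hxy
    · by_cases hvy : v = y
      · subst hvy
        refine ncard_le_two (a := b2) (b := x) ?_
        intro z hz
        have h1 : ((F.Adj v z ∨ (edge x v).Adj v z) ∧ ¬ (edge x a).Adj v z) ∧
          ¬ (edge v b1).Adj v z := hz
        simp only [edge_adj] at h1
        obtain ⟨⟨h2, -⟩, h3⟩ := h1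
        rcases h2 with h2 | h2
        · rcases (hy z).1 h2 with h4 | h4
          · exfalso
            apply h3
            exact ⟨Or.inl ⟨trivial, h4⟩, h2.ne⟩
          · exact Or.inl h4
        · rcases h2.1 with h4 | h4
          · exact absurd h4.1 hvx
          · exact Or.inr h4.2
      · refine le_trans (Set.ncard_le_ncard ?_ (Set.toFinite _)) (hF.2 v)
        intro z hz
        have h1 : ((F.Adj v z ∨ (edge x y).Adj v z) ∧ ¬ (edge x a).Adj v z) ∧
          ¬ (edge y b1).Adj v z := hz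
        simp only [edge_adj] at h1
        obtain ⟨⟨h2, -⟩, -⟩ := h1
        rcases h2 with h2 | h2
        · exact h2
        · rcases h2.1 with h4 | h4
          · exact absurd h4.1 hvx
          · exact absurd h4.1 hvy

end Pool.Agent.C4N.H29
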